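import Pool.Agent.H19.Pw

/-! Every integer `n ≥ 34` is a sum of positive powers of the first `L` primes. -/

set_option maxHeartbeats 400000

namespace Pool.Agent.Results.MP_9f71e8_nt.All

open Finset Pool.Agent.H19.Pw

/-- `n = 2 ^ α 0 + 3 ^ α 1 + ⋯` over the first `L ≥ 1` primes, all exponents positive
(`Nat.nth Nat.Prime j` is the `(j+1)`-st prime). -/
def Representable (n : ℕ) : Prop :=
  ∃ (L : ℕ) (α : ℕ → ℕ), 1 ≤ L ∧ (∀ j < L, 1 ≤ α j) ∧
    n = ∑ j ∈ range L, Nat.nth Nat.Prime j ^ α j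

def Rep (L x : ℕ) : Prop := ∃ α : ℕ → ℕ, (∀ j < L, 1 ≤ α j) ∧ x = ∑ j ∈ range L, p j ^ α j

lemma Rep.out {L x : ℕ} (h : Rep L x) (hL : 1 ≤ L) : Representable x := by
  obtain ⟨α, h1, h2⟩ := h
  exact ⟨L, α, hL, h1, h2⟩

lemma rep_step {L x : ℕ} (h : Rep L x) (a : ℕ) : Rep (L + 1) (x + p L ^ (a + 1)) := by
  obtain ⟨α, h1, rfl⟩ := h
  refine ⟨Function.update α L (a + 1), fun j hj => ?_, ?_⟩
  · by_cases e : j = L
    · simp [e]
    · rw [Function.update_of_ne e]
      exact h1 j (by omega)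
  · rw [sum_range_succ, Function.update_self]
    congr 1
    refine sum_congr rfl fun j hj => ?_
    rw [Function.update_of_ne (mem_range.1 hj).ne]

def ok : List ℕ → ℕ → Bool
  | [], n => n == 0
  | q :: qs, n => (List.range 8).any fun a => decide (q ^ (a + 1) ≤ n) && ok qs (n - q ^ (a + 1))

noncomputable def P : ℕ → List ℕ
  | 0 => []
  | L + 1 => p L :: P L

lemma ok_rep (L : ℕ) : ∀ n, ok (P L) n = true → Rep L n := by
  induction L with
  | zero =>
    intro n h
    exact ⟨fun _ => 1, by simp, by simpa [ok, P] using h⟩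
  | succ L ih =>
    intro n h
    simp only [P, ok, List.any_eq_true, Bool.and_eq_true, decide_eq_true_eq] at h
    obtain ⟨a, -, h1, h2⟩ := h
    have := rep_step (ih _ h2) a
    rwa [Nat.sub_add_cancel h1] at this

lemma P2 : P 2 = [3, 2] := by simp [P, p]
lemma P3 : P 3 = [5, 3, 2] := by simp [P, p]
lemma P4 : P 4 = [7, 5, 3, 2] := by simp [P, p]
lemma P5 : P 5 = [11, 7, 5, 3, 2] := by simp [P, p]
lemma P6 : P 6 = [13, 11, 7, 5, 3, 2] := by rw [P, P5, p5]
lemma P7 : P 7 = [17, 13, 11, 7, 5, 3, 2] := by rw [P, P6, p6]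
lemma P8 : P 8 = [19, 17, 13, 11, 7, 5, 3, 2] := by rw [P, P7, p7]
lemma P1 : P 1 = [2] := by simp [P, p]

noncomputable def S (k : ℕ) : ℕ := ∑ j ∈ range k, p j

lemma S5 : S 5 = 28 := by simp [S, sum_range_succ, p]
lemma G5 : G 5 = 180 := by simp [G, sum_range_succ, p]

lemma inv (k : ℕ) (hk : 5 ≤ k) : ∀ i, 2 * i + 22 ≤ G k → Rep k (S k + 116 + 2 * i) := by
  induction k, hk using Nat.le_induction with
  | base =>
    intro i hi
    rw [G5] at hi
    have h : ∀ i < 80, ok [11, 7, 5, 3, 2] (28 + 116 + 2 * i) = true := by decide +kernel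
    rw [S5]
    exact ok_rep 5 _ (P5 ▸ h i (by omega))
  | succ k hk ih =>
    intro i hi
    rw [G, sum_range_succ, ← G] at hi
    rw [S, sum_range_succ, ← S]
    have hr := richert k hk
    obtain ⟨e, he⟩ := Nat.even_mul_pred_self (p k)
    by_cases h : 2 * i + 22 ≤ G k
    · have := rep_step (ih i h) 0
      rwa [zero_add, pow_one, show S k + 116 + 2 * i + p k = S k + p k + 116 + 2 * i by ring] at this
    · have := rep_step (ih (i - e) (by omega)) 1
      have h2 := (pp k).two_le
      have e2 : p k ^ (1 + 1) = p k + (e + e) := by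
        rw [← he]
        obtain ⟨m, hm⟩ : ∃ m, p k = m + 1 := ⟨p k - 1, by omega⟩
        rw [hm, Nat.add_sub_cancel]
        ring
      rwa [e2, show S k + 116 + 2 * (i - e) + (p k + (e + e)) = S k + p k + 116 + 2 * i by omega]
        at this

lemma big (L : ℕ) (hL : 5 ≤ L) : ∀ n, 157 ≤ n → n < S (L + 1) + 116 → Representable n := by
  induction L, hL using Nat.le_induction with
  | base =>
    intro n h1 h2
    rw [S, sum_range_succ, ← S, S5, p5] at h2
    omega
  | succ L hL ih =>
    intro n h1 h2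
    by_cases h : n < S (L + 1) + 116
    · exact ih n h1 h
    rw [S, sum_range_succ, ← S] at h2
    have r1 := richert (L + 1) (by omega)
    have r2 := richert L hL
    have q1 : 17 ≤ p (L + 1) := p6 ▸ pmono.monotone (show 6 ≤ L + 1 by omega)
    have q2 : p L < p (L + 1) := pmono (by omega)
    have q3 : p (L + 1) * 16 ≤ p (L + 1) * (p (L + 1) - 1) := Nat.mul_le_mul_left _ (by omega)
    have q4 : G (L + 1) = G L + p L * (p L - 1) := by rw [G, sum_range_succ, ← G]
    have q5 : S (L + 1) = S L + p L := by rw [S, sum_range_succ, ← S]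
    have q6 : p L % 2 = 1 := by
      obtain ⟨j, rfl⟩ : ∃ j, L = j + 1 := ⟨L - 1, by omega⟩
      exact podd j
    by_cases par : (n - (S (L + 1) + 116)) % 2 = 0
    · have := inv (L + 1) (by omega) ((n - (S (L + 1) + 116)) / 2) (by omega)
      rw [show S (L + 1) + 116 + 2 * ((n - (S (L + 1) + 116)) / 2) = n by omega] at this
      exact this.out (by omega)
    · have := inv L hL ((n - (S L + 116)) / 2) (by omega)
      rw [show S L + 116 + 2 * ((n - (S L + 116)) / 2) = n by omega] at this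
      exact this.out (by omega)

theorem result (n : ℕ) (hn : 34 ≤ n) : Representable n := by
  by_cases h : n < 157
  · have key : ∀ n < 157, 34 ≤ n → (ok [2] n || ok [3, 2] n || ok [5, 3, 2] n ||
        ok [7, 5, 3, 2] n || ok [11, 7, 5, 3, 2] n || ok [13, 11, 7, 5, 3, 2] n ||
        ok [17, 13, 11, 7, 5, 3, 2] n || ok [19, 17, 13, 11, 7, 5, 3, 2] n) = true := by
      decide +kernel
    have := key n h hn
    simp only [Bool.or_eq_true] at this
    rcases this with ((((((a | a) | a) | a) | a) | a) | a) | a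
    · exact (ok_rep 1 n (P1 ▸ a)).out (by omega)
    · exact (ok_rep 2 n (P2 ▸ a)).out (by omega)
    · exact (ok_rep 3 n (P3 ▸ a)).out (by omega)
    · exact (ok_rep 4 n (P4 ▸ a)).out (by omega)
    · exact (ok_rep 5 n (P5 ▸ a)).out (by omega)
    · exact (ok_rep 6 n (P6 ▸ a)).out (by omega)
    · exact (ok_rep 7 n (P7 ▸ a)).out (by omega)
    · exact (ok_rep 8 n (P8 ▸ a)).out (by omega)
  · refine big n (by omega) n (by omega) ?_
    have : ∑ j ∈ range (n + 1), 1 ≤ S (n + 1) := sum_le_sum fun j _ => (pp j).one_le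
    simp only [sum_const, card_range, smul_eq_mul, mul_one] at this
    omega

end Pool.Agent.Results.MP_9f71e8_nt.All
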